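import Mathlib
import Pool.Agent.H759R2.Kad.Props5

open scoped ComplexOrder InnerProductSpace ComplexConjugate
open Finset

noncomputable section

namespace H759R2.Kad

universe u v

namespace H849F4

variable {H : Type u} [NormedAddCommGroup H] [InnerProductSpace ℂ H] [CompleteSpace H]

theorem ini_idem {v : H →L[ℂ] H} (hv : IsPI v) :
    (star v * v) * (star v * v) = star v * v := by
  have h : v * star v * v = v := hv
  calc (star v * v) * (star v * v) = star v * (v * star v * v) := by simp only [mul_assoc]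
    _ = _ := by rw [h]

theorem ini_star (v : H →L[ℂ] H) : star (star v * v) = star v * v := by
  rw [star_mul, star_star]

theorem ini_ini {v w : H →L[ℂ] H} (hv : IsPI v) (hw : IsPI w) (h : Ext v w) :
    (star w * w) * (star v * v) = star v * v := by
  have h' : w * (star v * v) = v := h
  set e := star v * v with he
  set f := star w * w with hf
  have hee : e * e = e := ini_idem hv
  have hff : f * f = f := ini_idem hw
  have hes : star e = e := ini_star v
  have hfs : star f = f := ini_star w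
  have h1 : e * f * e = e := by
    have : star (w * e) * (w * e) = e := by rw [h']
    rw [star_mul, hes] at this
    calc e * f * e = e * star w * (w * e) := by rw [hf]; simp only [mul_assoc]
      _ = e := this
  have h2 : star (e - f * e) * (e - f * e) = 0 := by
    rw [star_sub, star_mul f e, hes, hfs]
    calc (e - e * f) * (e - f * e) = e * e - e * f * e - e * f * e + e * (f * f) * e := by
          noncomm_ring
      _ = 0 := by rw [hee, hff, h1]; abel
  have h3 := (CStarRing.star_mul_self_eq_zero_iff _).1 h2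
  exact (sub_eq_zero.1 h3).symm

theorem star_mul_of_ext {v w : H →L[ℂ] H} (hv : IsPI v) (hw : IsPI w) (h : Ext v w) :
    star w * v = star v * v := by
  have h' : w * (star v * v) = v := h
  calc star w * v = star w * (w * (star v * v)) := by rw [h']
    _ = (star w * w) * (star v * v) := by simp only [mul_assoc]
    _ = _ := ini_ini hv hw h

theorem ext_refl {v : H →L[ℂ] H} (hv : IsPI v) : Ext v v := by
  unfold Ext
  rw [← mul_assoc]
  exact hv

theorem ext_trans {v w z : H →L[ℂ] H} (hv : IsPI v) (hw : IsPI w) (h1 : Ext v w) (h2 : Ext w z) :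
    Ext v z := by
  unfold Ext
  have h1' : w * (star v * v) = v := h1
  have h2' : z * (star w * w) = w := h2
  calc z * (star v * v) = z * ((star w * w) * (star v * v)) := by rw [ini_ini hv hw h1]
    _ = (z * (star w * w)) * (star v * v) := by simp only [mul_assoc]
    _ = v := by rw [h2', h1']

theorem norm_le_one {v : H →L[ℂ] H} (hv : IsPI v) : ‖v‖ ≤ 1 := by
  have h1 : ‖star v * v‖ = ‖v‖ * ‖v‖ := CStarRing.norm_star_mul_self
  have h2 : ‖star v * v‖ = ‖star v * v‖ * ‖star v * v‖ := by
    have := @CStarRing.norm_star_mul_self (H →L[ℂ] H) _ _ _ (star v * v)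
    rw [ini_star, ini_idem hv] at this
    exact this
  have h0 := norm_nonneg v
  by_contra hlt
  push Not at hlt
  have h3 : 1 < ‖v‖ * ‖v‖ := by nlinarith
  rw [h1] at h2
  nlinarith

theorem norm_app_le {v : H →L[ℂ] H} (hv : IsPI v) (x : H) : ‖v x‖ ≤ ‖x‖ := by
  have := v.le_opNorm x
  nlinarith [norm_le_one hv, norm_nonneg x, norm_nonneg v]

theorem norm_sub_sq {v w : H →L[ℂ] H} (hv : IsPI v) (hw : IsPI w) (h : Ext v w) (x : H) :
    ‖w x - v x‖ ^ 2 = ‖w x‖ ^ 2 - ‖v x‖ ^ 2 := by
  have h1 : ⟪w x, v x⟫_ℂ = ⟪v x, v x⟫_ℂ := by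
    have e1 : ⟪w x, v x⟫_ℂ = ⟪x, (star w * v) x⟫_ℂ := by
      rw [ContinuousLinearMap.star_eq_adjoint, mul_apply_eq_comp,
        ContinuousLinearMap.adjoint_inner_right]
    have e2 : ⟪v x, v x⟫_ℂ = ⟪x, (star v * v) x⟫_ℂ := by
      rw [ContinuousLinearMap.star_eq_adjoint, mul_apply_eq_comp,
        ContinuousLinearMap.adjoint_inner_right]
    rw [e1, e2, star_mul_of_ext hv hw h]
  rw [@_root_.norm_sub_sq ℂ, h1, inner_self_eq_norm_sq_to_K]
  norm_cast
  ring

/-- index type of the chain -/
structure Idx (C : Set (H →L[ℂ] H)) where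
  /-- the element -/
  val : H →L[ℂ] H
  mem : val ∈ C

end H849F4

open H849F4 Filter Topology in
theorem prove5_chain : F_chain.{u} := by
  intro H _ _ _ M C hne hC hch
  -- the chain as a directed preorder
  let ι := Idx C
  have hPI : ∀ v : ι, IsPI v.1 := fun v => (hC v.1 v.2).2
  let _ : Preorder ι :=
    { le := fun v w => Ext v.1 w.1
      le_refl := fun v => ext_refl (hPI v)
      le_trans := fun v w z h1 h2 => ext_trans (hPI v) (hPI w) h1 h2 }
  have : Nonempty ι := ⟨⟨hne.some, hne.some_mem⟩⟩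
  have : IsDirectedOrder ι := ⟨fun v w => by
    rcases hch v.1 v.2 w.1 w.2 with h | h
    · exact ⟨w, h, ext_refl (hPI w)⟩
    · exact ⟨v, ext_refl (hPI v), h⟩⟩
  have hle : ∀ v w : ι, v ≤ w ↔ Ext v.1 w.1 := fun v w => Iff.rfl
  -- strong convergence
  have hcau : ∀ x : H, Cauchy (map (fun v : ι => v.1 x) atTop) := by
    intro x
    rw [Metric.cauchy_iff]
    refine ⟨inferInstance, ?_⟩
    intro ε hε
    -- the numbers ‖v x‖^2 are bounded, take v close to the supremum
    have hbdd : BddAbove (Set.range fun v : ι => ‖v.1 x‖ ^ 2) := by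
      refine ⟨‖x‖ ^ 2, ?_⟩
      rintro _ ⟨v, rfl⟩
      exact pow_le_pow_left₀ (norm_nonneg _) (norm_app_le (hPI v) x) 2
    obtain ⟨v, hv⟩ := exists_lt_of_lt_ciSup (show (⨆ v : ι, ‖v.1 x‖ ^ 2) - (ε / 4) ^ 2 <
      ⨆ v : ι, ‖v.1 x‖ ^ 2 by have : 0 < (ε / 4) ^ 2 := by positivity
                              linarith)
    have hclose : ∀ w : ι, v ≤ w → dist (w.1 x) (v.1 x) < ε / 2 := by
      intro w hw
      have h1 := norm_sub_sq (hPI v) (hPI w) hw x
      have h2 : ‖w.1 x‖ ^ 2 ≤ ⨆ v : ι, ‖v.1 x‖ ^ 2 := le_ciSup hbdd w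
      rw [dist_eq_norm]
      have h3 : ‖w.1 x - v.1 x‖ ^ 2 < (ε / 4) ^ 2 := by linarith
      have h4 := abs_lt_of_sq_lt_sq h3 (by positivity)
      rw [abs_of_nonneg (norm_nonneg _)] at h4
      linarith
    refine ⟨(fun v : ι => v.1 x) '' Set.Ici v, image_mem_map (mem_atTop v), ?_⟩
    rintro _ ⟨w, hw, rfl⟩ _ ⟨w', hw', rfl⟩
    have h1 := hclose w hw
    have h2 := hclose w' hw'
    calc dist (w.1 x) (w'.1 x) ≤ dist (w.1 x) (v.1 x) + dist (w'.1 x) (v.1 x) :=
          dist_triangle_right _ _ _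
      _ < ε := by linarith
  have hlim : ∀ x : H, ∃ y, Tendsto (fun v : ι => v.1 x) atTop (𝓝 y) := fun x =>
    CompleteSpace.complete (hcau x)
  choose g hg using hlim
  let Vl : H →ₗ[ℂ] H := linearMapOfTendsto g (fun v : ι => (v.1 : H →ₗ[ℂ] H))
    (tendsto_pi_nhds.2 hg)
  have hVl : ∀ x, Vl x = g x := fun x => rfl
  let V : H →L[ℂ] H := Vl.mkContinuous 1 (by
    intro x
    rw [hVl, one_mul]
    exact le_of_tendsto ((hg x).norm) (Eventually.of_forall fun v => norm_app_le (hPI v) x))
  have hV : ∀ x, Tendsto (fun v : ι => v.1 x) atTop (𝓝 (V x)) := hg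
  -- `V` extends every `v`
  have hext : ∀ v ∈ C, Ext v V := by
    intro v hv
    unfold Ext
    ext x
    have h1 := hV ((star v * v) x)
    have h2 : Tendsto (fun w : ι => w.1 ((star v * v) x)) atTop (𝓝 (v x)) := by
      refine tendsto_const_nhds.congr' ?_
      filter_upwards [eventually_ge_atTop (⟨v, hv⟩ : ι)] with w hw
      have h3 : w.1 * (star v * v) = v := hw
      change v x = (w.1 * (star v * v)) x
      rw [h3]
    exact tendsto_nhds_unique h1 h2
  -- `star V * v = star v * v`
  have hst : ∀ v ∈ C, star V * v = star v * v := by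
    intro v hv
    ext x
    refine ext_inner_left ℂ fun y => ?_
    have e1 : ⟪y, (star V * v) x⟫_ℂ = ⟪V y, v x⟫_ℂ := by
      rw [ContinuousLinearMap.star_eq_adjoint, mul_apply_eq_comp,
        ContinuousLinearMap.adjoint_inner_right]
    have h1 : Tendsto (fun w : ι => ⟪w.1 y, v x⟫_ℂ) atTop (𝓝 ⟪V y, v x⟫_ℂ) :=
      (hV y).inner tendsto_const_nhds
    have h2 : Tendsto (fun w : ι => ⟪w.1 y, v x⟫_ℂ) atTop (𝓝 ⟪y, (star v * v) x⟫_ℂ) := by
      refine tendsto_const_nhds.congr' ?_
      filter_upwards [eventually_ge_atTop (⟨v, hv⟩ : ι)] with w hw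
      rw [← star_mul_of_ext (hPI ⟨v, hv⟩) (hPI w) hw, ContinuousLinearMap.star_eq_adjoint,
        mul_apply_eq_comp, ContinuousLinearMap.adjoint_inner_right]
    rw [e1]
    exact tendsto_nhds_unique h1 h2
  refine ⟨V, ?_, ?_, hext, ?_⟩
  · -- membership
    rw [← VonNeumannAlgebra.commutant_commutant M, VonNeumannAlgebra.mem_commutant_iff]
    intro y hy
    rw [VonNeumannAlgebra.mem_commutant_iff] at hy
    ext x
    have h1 : Tendsto (fun w : ι => y (w.1 x)) atTop (𝓝 (y (V x))) :=
      (y.continuous.tendsto _).comp (hV x)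
    have h2 : Tendsto (fun w : ι => y (w.1 x)) atTop (𝓝 (V (y x))) := by
      refine (hV (y x)).congr ?_
      intro w
      have := hy w.1 (hC w.1 w.2).1
      exact congrArg (fun T : H →L[ℂ] H => T x) this
    exact tendsto_nhds_unique h1 h2
  · -- partial isometry
    unfold IsPI
    ext x
    have h1 : Tendsto (fun w : ι => (V * star V) (w.1 x)) atTop (𝓝 ((V * star V) (V x))) :=
      ((V * star V).continuous.tendsto _).comp (hV x)
    have h2 : Tendsto (fun w : ι => (V * star V) (w.1 x)) atTop (𝓝 (V x)) := by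
      refine (hV x).congr ?_
      intro w
      have e1 : V * star V * w.1 = w.1 := by
        rw [mul_assoc, hst w.1 w.2]; exact hext w.1 w.2
      exact congrArg (fun T : H →L[ℂ] H => T x) e1.symm
    exact tendsto_nhds_unique h1 h2
  · intro a b hab
    ext x
    have h1 : Tendsto (fun w : ι => a (w.1 (b x))) atTop (𝓝 (a (V (b x)))) :=
      (a.continuous.tendsto _).comp (hV (b x))
    have h2 : Tendsto (fun w : ι => a (w.1 (b x))) atTop (𝓝 0) := by
      refine tendsto_const_nhds.congr ?_
      intro w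
      exact (congrArg (fun T : H →L[ℂ] H => T x) (hab w.1 w.2)).symm
    exact tendsto_nhds_unique h1 h2

end H759R2.Kad
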